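import Mathlib

set_option autoImplicit false

/-! The field of `p`-adic complex numbers is separable, has cardinality continuum, and contains
every field of characteristic zero of cardinality at most continuum. -/

universe u v

namespace Pool.Agent.Y352.LL

open Cardinal Polynomial

theorem separable_algCl (p : ℕ) [Fact p.Prime] :
    TopologicalSpace.SeparableSpace (PadicAlgCl p) := by
  refine ⟨{x | IsAlgebraic ℚ x}, Algebraic.countable ℚ _, ?_⟩
  intro a
  rw [Metric.mem_closure_iff]
  intro ε hε
  have hint : IsIntegral ℚ_[p] a := Algebra.IsIntegral.isIntegral a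
  have fm : (minpoly ℚ_[p] a).Monic := minpoly.monic hint
  have hd : (minpoly ℚ_[p] a).natDegree ≠ 0 := (minpoly.natDegree_pos hint).ne'
  have hdense : DenseRange (algebraMap ℚ ℚ_[p]) := by
    rw [Metric.denseRange_iff]
    intro x r hr
    obtain ⟨q, hq⟩ := Padic.rat_dense p x hr
    exact ⟨q, by rw [dist_eq_norm]; simpa using hq⟩
  have hε' : (ε / (max ‖a‖ 1)) ^ (minpoly ℚ_[p] a).natDegree /
      ((minpoly ℚ_[p] a).natDegree + 1) > 0 := by positivity
  obtain ⟨g, gmon, gdeg, gcoeff⟩ :=
    exists_monic_and_natDegree_eq_and_norm_map_algebraMap_coeff_sub_lt hdense fm hε'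
  obtain ⟨b, hb, hab⟩ := exists_aroots_norm_sub_lt_of_norm_coeff_sub_lt (L := PadicAlgCl p)
      hε' (minpoly.aeval ℚ_[p] a) fm (gmon.map _) (gdeg ▸ (g.natDegree_map _)) gcoeff
      (IsAlgClosed.splits _)
  have hab : ‖a - b‖ < ε := by
    rw [← Real.rpow_natCast, ← mul_comm_div, div_self, one_mul,
        ← Real.rpow_mul (div_pos hε (by positivity)).le, mul_inv_cancel₀] at hab
    · simpa [mul_assoc, div_mul_cancel₀ _ (by positivity : (max ‖a‖ 1) > 0).ne'] using hab
    · simp [hd]
    · positivity
  refine ⟨b, ?_, by rwa [dist_eq_norm]⟩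
  rw [mem_aroots] at hb
  have h2 := hb.2
  rw [aeval_map_algebraMap] at h2
  exact ⟨g, gmon.ne_zero, h2⟩

theorem separable_Cp (p : ℕ) [Fact p.Prime] : TopologicalSpace.SeparableSpace ℂ_[p] := by
  have := separable_algCl p
  exact UniformSpace.Completion.separableSpace_completion

theorem card_le_of_separable (Y : Type) [MetricSpace Y] [TopologicalSpace.SeparableSpace Y] :
    #Y ≤ 𝔠 := by
  rcases isEmpty_or_nonempty Y with h | h
  · simp
  have hinj : Function.Injective
      (fun (x : Y) (n : ℕ) => dist x (TopologicalSpace.denseSeq Y n)) := by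
    intro x y hxy
    have h1 : ∀ n, dist x (TopologicalSpace.denseSeq Y n) = dist y (TopologicalSpace.denseSeq Y n) :=
      fun n => congrFun hxy n
    apply eq_of_forall_dist_le
    intro ε hε
    obtain ⟨n, hn⟩ :=
      (TopologicalSpace.denseRange_denseSeq Y).exists_dist_lt x (half_pos hε)
    have h2 := dist_triangle_right x y (TopologicalSpace.denseSeq Y n)
    rw [← h1] at h2
    linarith
  calc #Y ≤ #(ℕ → ℝ) := mk_le_of_injective hinj
    _ = 𝔠 := by simp [mk_real]

theorem card_Cp (p : ℕ) [Fact p.Prime] : #ℂ_[p] = 𝔠 := by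
  apply le_antisymm
  · have := separable_Cp p
    exact card_le_of_separable _
  · exact continuum_le_cardinal_of_nontriviallyNormedField _

/-- an algebraically closed field of characteristic zero and cardinality continuum contains every
field of characteristic zero of cardinality at most continuum -/
theorem exists_ringHom (F : Type u) [Field F] [CharZero F] (hF : #F ≤ 𝔠) (K : Type v) [Field K]
    [CharZero K] [IsAlgClosed K] (hK : #K = 𝔠) : Nonempty (F →+* K) := by
  let R := MvPolynomial (ULift.{u} ℝ) F
  let L := AlgebraicClosure (FractionRing R)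
  have hR : #R = 𝔠 := by
    have h1 : #R = #F ⊔ #(ULift.{u} ℝ) ⊔ ℵ₀ := MvPolynomial.cardinalMk_eq_max
    have h2 : #(ULift.{u} ℝ) = 𝔠 := by rw [mk_uLift, mk_real, lift_continuum]
    rw [h1, h2, max_eq_right hF, max_eq_left aleph0_le_continuum]
  have hL : #L = 𝔠 := by
    apply le_antisymm
    · calc #L ≤ max #(FractionRing R) ℵ₀ := Algebra.IsAlgebraic.cardinalMk_le_max _ _
        _ = 𝔠 := by rw [Cardinal.mk_fractionRing, hR]; exact max_eq_left aleph0_le_continuum
    · rw [← hR, ← Cardinal.mk_fractionRing R]
      exact mk_le_of_injective (algebraMap (FractionRing R) L).injective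
  have : CharZero R := inferInstance
  have : CharZero (FractionRing R) := inferInstance
  have : CharZero L := inferInstance
  obtain ⟨e⟩ := IsAlgClosed.ringEquiv_of_equiv_of_charZero (K := L) (L := K)
    (by rw [hL]; exact aleph0_lt_continuum)
    (by rw [← Cardinal.lift_mk_eq', hL, hK]; simp)
  exact ⟨(e : L →+* K).comp ((algebraMap (FractionRing R) L).comp
    ((algebraMap R (FractionRing R)).comp MvPolynomial.C))⟩

end Pool.Agent.Y352.LL
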