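import Mathlib
import Pool.Agent.Y352.LL.Cp

set_option autoImplicit false

/-! Every field of cardinality at most continuum embeds into a complete separable nontrivially
normed ultrametric field. -/

universe u v

namespace Pool.Agent.Y352.LL

open Cardinal Polynomial

/-- the algebraic closure, with the spectral norm -/
def AC (K0 : Type) [Field K0] : Type := AlgebraicClosure K0

noncomputable instance (K0 : Type) [Field K0] : Field (AC K0) :=
  inferInstanceAs (Field (AlgebraicClosure K0))

noncomputable instance (K0 : Type) [Field K0] : Algebra K0 (AC K0) :=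
  inferInstanceAs (Algebra K0 (AlgebraicClosure K0))

instance (K0 : Type) [Field K0] : Algebra.IsAlgebraic K0 (AC K0) :=
  inferInstanceAs (Algebra.IsAlgebraic K0 (AlgebraicClosure K0))

instance (K0 : Type) [Field K0] : IsAlgClosed (AC K0) :=
  inferInstanceAs (IsAlgClosed (AlgebraicClosure K0))

section

variable (K0 : Type) [NontriviallyNormedField K0] [CompleteSpace K0] [IsUltrametricDist K0]

noncomputable instance : NormedField (AC K0) := spectralNorm.normedField K0 (AC K0)

noncomputable instance : NormedAlgebra K0 (AC K0) := spectralNorm.normedAlgebra K0 (AC K0)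

theorem separable_AC (D : Type) [Field D] [Countable D] [Algebra D K0]
    (hD : DenseRange (algebraMap D K0)) : TopologicalSpace.SeparableSpace (AC K0) := by
  let _ : Algebra D (AC K0) := ((algebraMap K0 (AC K0)).comp (algebraMap D K0)).toAlgebra
  have : IsScalarTower D K0 (AC K0) := IsScalarTower.of_algebraMap_eq fun _ => rfl
  refine ⟨{x | IsAlgebraic D x}, Algebraic.countable D _, ?_⟩
  intro a
  rw [Metric.mem_closure_iff]
  intro ε hε
  have hint : IsIntegral K0 a := Algebra.IsIntegral.isIntegral a
  have fm : (minpoly K0 a).Monic := minpoly.monic hint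
  have hd : (minpoly K0 a).natDegree ≠ 0 := (minpoly.natDegree_pos hint).ne'
  have hε' : (ε / (max ‖a‖ 1)) ^ (minpoly K0 a).natDegree /
      ((minpoly K0 a).natDegree + 1) > 0 := by positivity
  obtain ⟨g, gmon, gdeg, gcoeff⟩ :=
    exists_monic_and_natDegree_eq_and_norm_map_algebraMap_coeff_sub_lt hD fm hε'
  obtain ⟨b, hb, hab⟩ := exists_aroots_norm_sub_lt_of_norm_coeff_sub_lt (L := AC K0)
      hε' (minpoly.aeval K0 a) fm (gmon.map _) (gdeg ▸ (g.natDegree_map _)) gcoeff
      (IsAlgClosed.splits _)
  have hab : ‖a - b‖ < ε := by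
    rw [← Real.rpow_natCast, ← mul_comm_div, div_self, one_mul,
        ← Real.rpow_mul (div_pos hε (by positivity)).le, mul_inv_cancel₀] at hab
    · simpa [mul_assoc, div_mul_cancel₀ _ (by positivity : (max ‖a‖ 1) > 0).ne'] using hab
    · simp [hd]
    · positivity
  refine ⟨b, ?_, by rwa [dist_eq_norm]⟩
  rw [mem_aroots] at hb
  have h2 := hb.2
  rw [aeval_map_algebraMap] at h2
  exact ⟨g, gmon.ne_zero, h2⟩

theorem card_AC (D : Type) [Field D] [Countable D] [Algebra D K0]
    (hD : DenseRange (algebraMap D K0)) : #(AC K0) = 𝔠 := by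
  apply le_antisymm
  · have := separable_AC K0 D hD
    exact card_le_of_separable _
  · exact (continuum_le_cardinal_of_nontriviallyNormedField K0).trans
      (mk_le_of_injective (algebraMap K0 (AC K0)).injective)

end

/-- an algebraically closed field of cardinality continuum contains every field of the same
characteristic of cardinality at most continuum -/
theorem exists_ringHom' (p : ℕ) (F : Type u) [Field F] [CharP F p] (hF : #F ≤ 𝔠) (K : Type v)
    [Field K] [CharP K p] [IsAlgClosed K] (hK : #K = 𝔠) : Nonempty (F →+* K) := by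
  let R := MvPolynomial (ULift.{u} ℝ) F
  let L := AlgebraicClosure (FractionRing R)
  have hR : #R = 𝔠 := by
    have h1 : #R = #F ⊔ #(ULift.{u} ℝ) ⊔ ℵ₀ := MvPolynomial.cardinalMk_eq_max
    have h2 : #(ULift.{u} ℝ) = 𝔠 := by rw [mk_uLift, mk_real, lift_continuum]
    rw [h1, h2, max_eq_right hF, max_eq_left aleph0_le_continuum]
  have hL : #L = 𝔠 := by
    apply le_antisymm
    · calc #L ≤ max #(FractionRing R) ℵ₀ := Algebra.IsAlgebraic.cardinalMk_le_max _ _
        _ = 𝔠 := by rw [Cardinal.mk_fractionRing, hR]; exact max_eq_left aleph0_le_continuum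
    · rw [← hR, ← Cardinal.mk_fractionRing R]
      exact mk_le_of_injective (algebraMap (FractionRing R) L).injective
  let f : F →+* L := (algebraMap (FractionRing R) L).comp
    ((algebraMap R (FractionRing R)).comp MvPolynomial.C)
  have : CharP L p := charP_of_injective_ringHom f.injective p
  obtain ⟨e⟩ := IsAlgClosed.ringEquiv_of_equiv_of_char_eq (K := L) (L := K) p
    (by rw [hL]; exact aleph0_lt_continuum)
    (by rw [← Cardinal.lift_mk_eq', hL, hK]; simp)
  exact ⟨(e : L →+* K).comp f⟩

theorem exists_big (K0 : Type) [NontriviallyNormedField K0] [CompleteSpace K0]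
    [IsUltrametricDist K0] (D : Type) [Field D] [Countable D] [Algebra D K0]
    (hD : DenseRange (algebraMap D K0)) (p : ℕ) [CharP K0 p] (F : Type u) [Field F] [CharP F p]
    (hF : #F ≤ 𝔠) :
    ∃ (K : Type) (_ : NontriviallyNormedField K), CompleteSpace K ∧ IsUltrametricDist K ∧
      TopologicalSpace.SeparableSpace K ∧ Nonempty (F →+* K) := by
  have : CharP (AC K0) p := charP_of_injective_algebraMap (algebraMap K0 (AC K0)).injective p
  obtain ⟨σ⟩ := exists_ringHom' p F hF (AC K0) (card_AC K0 D hD)
  have := separable_AC K0 D hD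
  let τ : AC K0 →+* UniformSpace.Completion (AC K0) := UniformSpace.Completion.coeRingHom
  refine ⟨UniformSpace.Completion (AC K0),
    { (inferInstance : NormedField (UniformSpace.Completion (AC K0))) with
      non_trivial := ?_ }, inferInstance, ?_, ?_, ⟨τ.comp σ⟩⟩
  · obtain ⟨x, hx⟩ := NontriviallyNormedField.non_trivial (α := K0)
    refine ⟨((algebraMap K0 (AC K0) x : AC K0) : UniformSpace.Completion (AC K0)), ?_⟩
    rw [UniformSpace.Completion.norm_coe, norm_algebraMap']
    exact hx
  · exact IsUltrametricDist.of_normedAlgebra (L := UniformSpace.Completion (AC K0)) K0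
  · exact UniformSpace.Completion.separableSpace_completion

end Pool.Agent.Y352.LL
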