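import Mathlib
import Pool.Agent.Y352.LL.Big

set_option autoImplicit false

/-! Every field of cardinality at most continuum embeds into a complete separable nontrivially
normed ultrametric field. -/

universe u v

namespace Pool.Agent.Y352.LL

open Cardinal Polynomial IsDedekindDomain

theorem exists_charP (p : ℕ) [Fact p.Prime] :
    ∃ (K0 : Type) (_ : NontriviallyNormedField K0) (D : Type) (_ : Field D) (_ : Algebra D K0),
      CompleteSpace K0 ∧ IsUltrametricDist K0 ∧ Countable D ∧ DenseRange (algebraMap D K0) ∧
        CharP K0 p := by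
  let D0 := FractionRing (ZMod p)[X]
  let v : AbsoluteValue D0 ℝ := (Polynomial.idealX (ZMod p)).adicAbv (K := D0) one_lt_two
  have hna : IsNonarchimedean v := HeightOneSpectrum.isNonarchimedean_adicAbv _ one_lt_two
  have hcD0 : Countable D0 := by
    rw [← mk_le_aleph0_iff, Cardinal.mk_fractionRing]
    exact Polynomial.cardinalMk_le_max.trans (max_le (mk_le_aleph0_iff.2 inferInstance) le_rfl)
  have hcD : Countable (WithAbs v) := (WithAbs.equiv v).toEquiv.countable_iff.2 hcD0
  have hX : v (algebraMap (ZMod p)[X] D0 X) < 1 := by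
    rw [HeightOneSpectrum.adicAbv_coe_lt_one_iff, Polynomial.idealX_span]
    exact Ideal.mem_span_singleton_self _
  have hX0 : algebraMap (ZMod p)[X] D0 X ≠ 0 := by
    intro h
    exact Polynomial.X_ne_zero ((IsFractionRing.injective (ZMod p)[X] D0) (h.trans (map_zero _).symm))
  have hcoe : ∀ x : WithAbs v, ‖(x : v.Completion)‖ = v ((WithAbs.equiv v) x) := by
    intro x
    rw [UniformSpace.Completion.norm_coe]
    rfl
  let τ : WithAbs v →+* v.Completion := UniformSpace.Completion.coeRingHom
  have hchar0 : CharP D0 p :=
    charP_of_injective_ringHom (f := (algebraMap (ZMod p)[X] D0).comp (C : ZMod p →+* _))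
      (RingHom.injective _) p
  have hchar1 : CharP (WithAbs v) p :=
    charP_of_injective_ringHom (f := ((WithAbs.equiv v).symm : D0 →+* WithAbs v))
      (WithAbs.equiv v).symm.injective p
  refine ⟨v.Completion,
    { (inferInstance : NormedField v.Completion) with
      non_trivial := ?_ }, WithAbs v, inferInstance, inferInstance, inferInstance, ?_, hcD, ?_, ?_⟩
  · refine ⟨(((WithAbs.equiv v).symm (algebraMap (ZMod p)[X] D0 X)⁻¹ : WithAbs v) :
      v.Completion), ?_⟩
    rw [hcoe]
    rw [RingEquiv.apply_symm_apply, map_inv₀]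
    exact (one_lt_inv₀ (v.pos hX0)).2 hX
  · apply IsUltrametricDist.isUltrametricDist_of_forall_norm_natCast_le_one
    intro n
    have h1 : (n : v.Completion) = ((n : WithAbs v) : v.Completion) := (map_natCast τ n).symm
    rw [h1, hcoe, map_natCast]
    exact hna.apply_natCast_le_one
  · exact UniformSpace.Completion.denseRange_coe
  · exact charP_of_injective_ringHom (f := τ) (RingHom.injective _) p

/-- every field of cardinality at most continuum embeds into a complete separable nontrivially
normed ultrametric field -/
theorem exists_field (F : Type u) [Field F] (hF : #F ≤ 𝔠) :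
    ∃ (K : Type) (_ : NontriviallyNormedField K), CompleteSpace K ∧ IsUltrametricDist K ∧
      TopologicalSpace.SeparableSpace K ∧ Nonempty (F →+* K) := by
  obtain ⟨p, hp⟩ := CharP.exists F
  rcases CharP.char_is_prime_or_zero F p with h | h
  · have : Fact p.Prime := ⟨h⟩
    obtain ⟨K0, i1, D, i2, i3, h1, h2, h3, h4, h5⟩ := exists_charP p
    exact exists_big K0 D h4 p F hF
  · subst h
    have hdense : DenseRange (algebraMap ℚ ℚ_[2]) := by
      rw [Metric.denseRange_iff]
      intro x r hr
      obtain ⟨q, hq⟩ := Padic.rat_dense 2 x hr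
      exact ⟨q, by rw [dist_eq_norm]; simpa using hq⟩
    have : CharP ℚ_[2] 0 := inferInstance
    exact exists_big ℚ_[2] ℚ hdense 0 F hF

end Pool.Agent.Y352.LL
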