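import Mathlib
import Pool.Agent.W344.LocalLatDef

set_option autoImplicit false

/-! Closed subgroups of a complete separable ultrametric abelian group, acting by translations on
the countable set of the cosets of the balls of radius `2^{-n}`, give complete sublattices of the
lattices of local monoids and of locally closed permutation groups.  (The proof generalises the one
of `Pool.Agent.W344.LocalLat` for the plane over the 2-adic numbers.) -/

universe u v

namespace Pool.Agent.Y352.LL

open Set Filter Topology Pool.Agent.W344.LocalLat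

section Closed

variable (A : Type) [NormedAddCommGroup A]

/-- the closed subgroups of `A` -/
def ClosedSub : Type := {H : AddSubgroup A // IsClosed (H : Set A)}

instance : PartialOrder (ClosedSub A) :=
  inferInstanceAs (PartialOrder {H : AddSubgroup A // IsClosed (H : Set A)})

instance : InfSet (ClosedSub A) where
  sInf s := ⟨⨅ H ∈ s, H.1, by
    have : ((⨅ H ∈ s, H.1 : AddSubgroup A) : Set A) = ⋂ H ∈ s, (H.1 : Set A) := by
      simp only [AddSubgroup.coe_iInf]
    rw [this]
    exact isClosed_biInter fun H _ => H.2⟩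

instance : CompleteLattice (ClosedSub A) :=
  completeLatticeOfInf _ (fun s => by
    constructor
    · intro M hM
      change (⨅ M ∈ s, M.1 : AddSubgroup A) ≤ M.1
      exact iInf₂_le M hM
    · intro N hN
      change N.1 ≤ (⨅ M ∈ s, M.1 : AddSubgroup A)
      exact le_iInf₂ fun M hM => hN hM)

end Closed

variable {A : Type} [NormedAddCommGroup A] [IsUltrametricDist A]

/-- the ball of radius `2^{-n}` -/
noncomputable def U (A : Type) [NormedAddCommGroup A] [IsUltrametricDist A] (n : ℕ) :
    AddSubgroup A where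
  carrier := {q | ‖q‖ ≤ (1 / 2 : ℝ) ^ n}
  zero_mem' := by simp
  add_mem' := by
    rintro a b h1 h2
    exact (IsUltrametricDist.norm_add_le_max a b).trans (max_le h1 h2)
  neg_mem' := by
    rintro a h1
    simpa using h1

theorem mem_U {n : ℕ} {q : A} : q ∈ U A n ↔ ‖q‖ ≤ (1 / 2 : ℝ) ^ n := Iff.rfl

theorem isClosed_U (n : ℕ) : IsClosed {q : A | q ∈ U A n} := by
  simp_rw [mem_U]
  exact isClosed_le continuous_norm continuous_const

/-- the set acted on -/
abbrev X0 (A : Type) [NormedAddCommGroup A] [IsUltrametricDist A] : Type :=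
  Σ n : ℕ, A ⧸ U A n

theorem countable_quot [TopologicalSpace.SeparableSpace A] (n : ℕ) : Countable (A ⧸ U A n) := by
  have : Nonempty A := ⟨0⟩
  let f : ℕ → A ⧸ U A n := fun k => QuotientAddGroup.mk (TopologicalSpace.denseSeq A k)
  have hf : Function.Surjective f := by
    intro q
    obtain ⟨x, rfl⟩ := QuotientAddGroup.mk_surjective q
    obtain ⟨k, hk⟩ := (TopologicalSpace.denseRange_denseSeq A).exists_dist_lt x
      (show (0 : ℝ) < (1 / 2 : ℝ) ^ n by positivity)
    refine ⟨k, ?_⟩
    simp only [f]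
    rw [QuotientAddGroup.eq]
    change ‖-(TopologicalSpace.denseSeq A k) + x‖ ≤ _
    rw [neg_add_eq_sub, ← dist_eq_norm]
    exact hk.le
  exact hf.countable

/-- translation -/
noncomputable def act (g : A) (x : X0 A) : X0 A :=
  ⟨x.1, (QuotientAddGroup.mk g : A ⧸ U A x.1) + x.2⟩

theorem act_zero : act (0 : A) = id := by
  funext ⟨n, x⟩
  simp [act]

theorem act_add (g h : A) (x : X0 A) : act (g + h) x = act g (act h x) := by
  obtain ⟨n, x⟩ := x
  simp only [act]
  congr 1
  rw [QuotientAddGroup.mk_add, add_assoc]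
  rfl

theorem act_base {g h : A} {n : ℕ} : act g ⟨n, 0⟩ = act h ⟨n, 0⟩ ↔ g - h ∈ U A n := by
  simp only [act, add_zero]
  rw [Sigma.mk.injEq]
  simp only [heq_eq_eq, true_and]
  rw [QuotientAddGroup.eq, neg_add_eq_sub, ← neg_sub, neg_mem_iff]

theorem act_congr {g h : A} {x : X0 A} (H : g - h ∈ U A x.1) : act g x = act h x := by
  have h13 : (QuotientAddGroup.mk g : A ⧸ U A x.1) = QuotientAddGroup.mk h := by
    rw [QuotientAddGroup.eq, neg_add_eq_sub, ← neg_sub, neg_mem_iff]; exact H
  simp only [act, h13]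

theorem eq_zero_of_mem {g : A} (h : ∀ n, g ∈ U A n) : g = 0 := by
  have h1 : Tendsto (fun n : ℕ => (1 / 2 : ℝ) ^ n) atTop (𝓝 0) :=
    tendsto_pow_atTop_nhds_zero_of_lt_one (by norm_num) (by norm_num)
  have h2 : ‖g‖ ≤ 0 := ge_of_tendsto' h1 fun n => mem_U.1 (h n)
  exact norm_le_zero_iff.1 h2

theorem act_inj {g h : A} (H : act g = act h) : g = h := by
  rw [← sub_eq_zero]
  apply eq_zero_of_mem
  intro n
  rw [← act_base, H]

section transport

variable {X : Type u} (e : X ≃ X0 A)

/-- transported translation -/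
noncomputable def actX (g : A) : X → X := fun x => e.symm (act g (e x))

theorem actX_zero : actX e 0 = id := by
  funext x
  simp [actX, act_zero]

theorem actX_add (g h : A) : actX e (g + h) = actX e g ∘ actX e h := by
  funext x
  simp [actX, act_add]

theorem actX_inj {g h : A} (H : actX e g = actX e h) : g = h := by
  apply act_inj
  funext y
  have := congrFun H (e.symm y)
  simpa [actX] using this

theorem actX_continuous : @Continuous A (X → X) _ (ptTop X) (actX e) := by
  let _ : TopologicalSpace X := ⊥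
  have _ : DiscreteTopology X := ⟨rfl⟩
  change @Continuous A (X → X) _ Pi.topologicalSpace (actX e)
  apply continuous_pi
  intro x
  rw [continuous_discrete_rng]
  intro y
  rw [Metric.isOpen_iff]
  intro g hg
  refine ⟨(1 / 2 : ℝ) ^ (e x).1, by positivity, fun h hh => ?_⟩
  rw [Metric.mem_ball, dist_eq_norm] at hh
  simp only [mem_preimage, mem_singleton_iff] at hg ⊢
  rw [← hg]
  simp only [actX]
  congr 1
  exact act_congr hh.le

theorem actX_closed [CompleteSpace A] (S : Set A) (hS : IsClosed S) :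
    @IsClosed (X → X) (ptTop X) {f : X → X | ∃ g ∈ S, actX e g = f} := by
  let _ : TopologicalSpace X := ⊥
  have _ : DiscreteTopology X := ⟨rfl⟩
  change @IsClosed (X → X) Pi.topologicalSpace {f : X → X | ∃ g ∈ S, actX e g = f}
  apply isClosed_of_closure_subset
  intro f hf
  have key : ∀ F : Finset X, ∃ g ∈ S, ∀ x ∈ F, actX e g x = f x := by
    intro F
    have hopen : IsOpen {h : X → X | ∀ x ∈ F, h x = f x} := by
      have : {h : X → X | ∀ x ∈ F, h x = f x} = ⋂ x ∈ F, (fun h : X → X => h x) ⁻¹' {f x} := by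
        ext h; simp
      rw [this]
      exact isOpen_biInter_finset fun x _ => (isOpen_discrete _).preimage (continuous_apply x)
    obtain ⟨h, h1, g, hg, h2⟩ := mem_closure_iff.1 hf _ hopen (fun x _ => rfl)
    refine ⟨g, hg, fun x hx => ?_⟩
    rw [h2]; exact h1 x hx
  classical
  choose G hG hGF using fun n : ℕ => key ((Finset.range (n + 1)).image fun k => e.symm ⟨k, 0⟩)
  have h3 : ∀ n k : ℕ, k ≤ n → act (G n) ⟨k, 0⟩ = e (f (e.symm ⟨k, 0⟩)) := by
    intro n k hk
    have := hGF n (e.symm ⟨k, 0⟩) (Finset.mem_image.2 ⟨k, Finset.mem_range.2 (by omega), rfl⟩)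
    rw [← this]
    simp [actX]
  have h4 : ∀ n m : ℕ, n ≤ m → G m - G n ∈ U A n := by
    intro n m hnm
    rw [← act_base, h3 m n hnm, h3 n n le_rfl]
  have hc : CauchySeq G := by
    apply Metric.cauchySeq_iff'.2
    intro ε hε
    obtain ⟨N, hN⟩ := exists_pow_lt_of_lt_one hε (by norm_num : (1 / 2 : ℝ) < 1)
    refine ⟨N, fun n hn => ?_⟩
    rw [dist_eq_norm]
    exact lt_of_le_of_lt (mem_U.1 (h4 N n hn)) hN
  obtain ⟨g, hg⟩ := cauchySeq_tendsto_of_complete hc
  have hgS : g ∈ S := hS.mem_of_tendsto hg (Eventually.of_forall hG)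
  have h5 : ∀ n, g - G n ∈ U A n := by
    intro n
    have h6 : Tendsto (fun m => G m - G n) atTop (𝓝 (g - G n)) := hg.sub_const _
    exact (isClosed_U n).mem_of_tendsto h6 (eventually_atTop.2 ⟨n, fun m hm => h4 n m hm⟩)
  have h7 : ∀ n : ℕ, act g ⟨n, 0⟩ = e (f (e.symm ⟨n, 0⟩)) := by
    intro n
    rw [← h3 n n le_rfl, act_base]
    exact h5 n
  refine ⟨g, hgS, ?_⟩
  funext x
  obtain ⟨g', hg', h8⟩ := key {x, e.symm ⟨(e x).1, 0⟩}
  have h9 := h8 x (by simp)
  have h10 := h8 (e.symm ⟨(e x).1, 0⟩) (by simp)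
  rw [← h9]
  simp only [actX]
  congr 1
  have h11 : act g' ⟨(e x).1, 0⟩ = act g ⟨(e x).1, 0⟩ := by
    rw [h7, ← h10]
    simp [actX]
  exact (act_congr (act_base.1 h11)).symm

variable [CompleteSpace A]

/-- the local monoid of translations by the elements of a closed subgroup -/
noncomputable def monOf (H : ClosedSub A) : LocalMonoid X :=
  ⟨{ carrier := {f : X → X | ∃ g ∈ (H.1 : Set A), actX e g = f}
     one_mem' := ⟨0, H.1.zero_mem, actX_zero e⟩
     mul_mem' := by
      rintro _ _ ⟨g, hg, rfl⟩ ⟨h, hh, rfl⟩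
      exact ⟨g + h, H.1.add_mem hg hh, actX_add e g h⟩ }, actX_closed e _ H.2⟩

/-- translations as permutations -/
noncomputable def actP (g : A) : Equiv.Perm X where
  toFun := actX e g
  invFun := actX e (-g)
  left_inv x := by
    have := congrFun (actX_add e (-g) g) x
    rw [neg_add_cancel, actX_zero] at this
    exact this.symm
  right_inv x := by
    have := congrFun (actX_add e g (-g)) x
    rw [add_neg_cancel, actX_zero] at this
    exact this.symm

omit [CompleteSpace A] in
theorem actP_zero : actP e 0 = 1 := by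
  ext x
  exact congrFun (actX_zero e) x

omit [CompleteSpace A] in
theorem actP_add (g h : A) : actP e (g + h) = actP e g * actP e h := by
  ext x
  exact congrFun (actX_add e g h) x

omit [CompleteSpace A] in
theorem actP_inj {g h : A} (H : actP e g = actP e h) : g = h := by
  apply actX_inj e
  exact congrArg (fun f : Equiv.Perm X => (f : X → X)) H

omit [CompleteSpace A] in
theorem actP_neg (g : A) : actP e (-g) = (actP e g)⁻¹ := by
  rw [eq_inv_iff_mul_eq_one, ← actP_add, neg_add_cancel, actP_zero]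

omit [CompleteSpace A] in
theorem actP_continuous : @Continuous A (Equiv.Perm X) _ (symTop X) (actP e) := by
  rw [continuous_induced_rng]
  exact actX_continuous e

theorem actP_closed (S : Set A) (hS : IsClosed S) :
    @IsClosed (Equiv.Perm X) (symTop X) {f : Equiv.Perm X | ∃ g ∈ S, actP e g = f} := by
  apply (@isClosed_induced_iff (Equiv.Perm X) (X → X) (ptTop X) _ _).2
  refine ⟨_, actX_closed e S hS, ?_⟩
  ext f
  constructor
  · rintro ⟨g, hg, h⟩
    exact ⟨g, hg, Equiv.coe_fn_injective h⟩
  · rintro ⟨g, hg, rfl⟩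
    exact ⟨g, hg, rfl⟩

/-- the locally closed group of translations by the elements of a closed subgroup -/
noncomputable def grOf (H : ClosedSub A) : LocalGroup X :=
  ⟨{ carrier := {f : Equiv.Perm X | ∃ g ∈ (H.1 : Set A), actP e g = f}
     one_mem' := ⟨0, H.1.zero_mem, actP_zero e⟩
     mul_mem' := by
      rintro _ _ ⟨g, hg, rfl⟩ ⟨h, hh, rfl⟩
      exact ⟨g + h, H.1.add_mem hg hh, actP_add e g h⟩
     inv_mem' := by
      rintro _ ⟨g, hg, rfl⟩
      exact ⟨-g, H.1.neg_mem hg, actP_neg e g⟩ }, actP_closed e _ H.2⟩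

theorem monOf_le {H K : ClosedSub A} : monOf e H ≤ monOf e K ↔ H ≤ K := by
  constructor
  · intro h g hg
    obtain ⟨g', hg', h4⟩ := h (show actX e g ∈ (monOf e H).1 from ⟨g, hg, rfl⟩)
    rw [actX_inj e h4] at hg'
    exact hg'
  · rintro h f ⟨g, hg, rfl⟩
    exact ⟨g, h hg, rfl⟩

theorem grOf_le {H K : ClosedSub A} : grOf e H ≤ grOf e K ↔ H ≤ K := by
  constructor
  · intro h g hg
    obtain ⟨g', hg', h4⟩ := h (show actP e g ∈ (grOf e H).1 from ⟨g, hg, rfl⟩)
    rw [actP_inj e h4] at hg'
    exact hg'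
  · rintro h f ⟨g, hg, rfl⟩
    exact ⟨g, h hg, rfl⟩

theorem monOf_sSup (S : Set (ClosedSub A)) : monOf e (sSup S) = sSup (monOf e '' S) := by
  apply le_antisymm
  · -- the closed subgroup of all translations lying in the supremum together with their inverses
    let N : LocalMonoid X := sSup (monOf e '' S)
    have hcl : IsClosed {g : A | actX e g ∈ N.1} := by
      have := N.2
      exact @IsClosed.preimage A (X → X) _ (ptTop X) _ (actX_continuous e) _ this
    let C : ClosedSub A := ⟨{
      carrier := {g : A | actX e g ∈ N.1 ∧ actX e (-g) ∈ N.1}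
      zero_mem' := by
        constructor
        · rw [actX_zero]; exact N.1.one_mem
        · rw [neg_zero, actX_zero]; exact N.1.one_mem
      add_mem' := by
        rintro a b ⟨h1, h2⟩ ⟨h3, h4⟩
        constructor
        · rw [actX_add]; exact N.1.mul_mem h1 h3
        · rw [neg_add, actX_add]; exact N.1.mul_mem h2 h4
      neg_mem' := by
        rintro a ⟨h1, h2⟩
        refine ⟨h2, ?_⟩
        rw [neg_neg]; exact h1 }, hcl.inter (hcl.preimage continuous_neg)⟩
    have hC : sSup S ≤ C := by
      apply sSup_le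
      intro H hH g hg
      have h1 : monOf e H ≤ N := le_sSup (mem_image_of_mem _ hH)
      exact ⟨h1 ⟨g, hg, rfl⟩, h1 ⟨-g, H.1.neg_mem hg, rfl⟩⟩
    rintro f ⟨g, hg, rfl⟩
    exact (hC hg).1
  · apply sSup_le
    rintro _ ⟨H, hH, rfl⟩
    exact (monOf_le e).2 (le_sSup hH)

theorem grOf_sSup (S : Set (ClosedSub A)) : grOf e (sSup S) = sSup (grOf e '' S) := by
  apply le_antisymm
  · let N : LocalGroup X := sSup (grOf e '' S)
    let C : ClosedSub A := ⟨{
      carrier := {g : A | actP e g ∈ N.1}
      zero_mem' := by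
        show actP e 0 ∈ N.1
        rw [actP_zero]; exact N.1.one_mem
      add_mem' := by
        intro a b h1 h3
        show actP e (a + b) ∈ N.1
        rw [actP_add]; exact N.1.mul_mem h1 h3
      neg_mem' := by
        intro a h1
        show actP e (-a) ∈ N.1
        rw [actP_neg]; exact N.1.inv_mem h1 }, by
        have := N.2
        exact @IsClosed.preimage A (Equiv.Perm X) _ (symTop X) _ (actP_continuous e) _ this⟩
    have hC : sSup S ≤ C := by
      apply sSup_le
      intro H hH g hg
      have h1 : grOf e H ≤ N := le_sSup (mem_image_of_mem _ hH)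
      exact h1 ⟨g, hg, rfl⟩
    rintro f ⟨g, hg, rfl⟩
    exact hC hg
  · apply sSup_le
    rintro _ ⟨H, hH, rfl⟩
    exact (grOf_le e).2 (le_sSup hH)

theorem monOf_sInf (S : Set (ClosedSub A)) (hS : S.Nonempty) :
    monOf e (sInf S) = sInf (monOf e '' S) := by
  apply le_antisymm
  · apply le_sInf
    rintro _ ⟨H, hH, rfl⟩
    exact (monOf_le e).2 (sInf_le hH)
  · intro f hf
    obtain ⟨H0, hH0⟩ := hS
    have h0 : ∀ H ∈ S, f ∈ (monOf e H).1 := fun H hH =>
      (sInf_le (mem_image_of_mem _ hH) : sInf (monOf e '' S) ≤ monOf e H) hf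
    obtain ⟨g, -, rfl⟩ := h0 H0 hH0
    refine ⟨g, ?_, rfl⟩
    show g ∈ (⨅ H ∈ S, H.1 : AddSubgroup A)
    simp only [AddSubgroup.mem_iInf]
    intro H hH
    obtain ⟨g', hg', h1⟩ := h0 H hH
    rw [actX_inj e h1] at hg'
    exact hg'

theorem grOf_sInf (S : Set (ClosedSub A)) (hS : S.Nonempty) :
    grOf e (sInf S) = sInf (grOf e '' S) := by
  apply le_antisymm
  · apply le_sInf
    rintro _ ⟨H, hH, rfl⟩
    exact (grOf_le e).2 (sInf_le hH)
  · intro f hf
    obtain ⟨H0, hH0⟩ := hS
    have h0 : ∀ H ∈ S, f ∈ (grOf e H).1 := fun H hH =>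
      (sInf_le (mem_image_of_mem _ hH) : sInf (grOf e '' S) ≤ grOf e H) hf
    obtain ⟨g, -, rfl⟩ := h0 H0 hH0
    refine ⟨g, ?_, rfl⟩
    show g ∈ (⨅ H ∈ S, H.1 : AddSubgroup A)
    simp only [AddSubgroup.mem_iInf]
    intro H hH
    obtain ⟨g', hg', h1⟩ := h0 H hH
    rw [actP_inj e h1] at hg'
    exact hg'

end transport

theorem exists_equiv [TopologicalSpace.SeparableSpace A] (X : Type u) [Countable X] [Infinite X] :
    Nonempty (X ≃ X0 A) := by
  have : ∀ n, Countable (A ⧸ U A n) := countable_quot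
  have : Infinite (X0 A) := by
    apply Infinite.of_injective (fun n : ℕ => (⟨n, 0⟩ : X0 A))
    intro a b h
    exact congrArg Sigma.fst h
  obtain ⟨e1⟩ := nonempty_denumerable X
  obtain ⟨e2⟩ := nonempty_denumerable (X0 A)
  exact ⟨(Denumerable.eqv X).trans (Denumerable.eqv (X0 A)).symm⟩

/-- `f` is a complete embedding: it is injective and preserves all suprema and all infima of
nonempty sets. -/
def IsCompleteEmbedding {L : Type*} {M : Type*} [CompleteLattice L] [CompleteLattice M]
    (f : L → M) : Prop :=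
  Function.Injective f ∧ (∀ S : Set L, f (sSup S) = sSup (f '' S)) ∧
    ∀ S : Set L, S.Nonempty → f (sInf S) = sInf (f '' S)

/-- The lattice of closed subgroups of a complete separable ultrametric abelian group. -/
theorem exists_embeddings [CompleteSpace A] [TopologicalSpace.SeparableSpace A]
    (X : Type u) [Countable X] [Infinite X] :
    (∃ f : ClosedSub A → LocalMonoid X, IsCompleteEmbedding f) ∧
      ∃ f : ClosedSub A → LocalGroup X, IsCompleteEmbedding f := by
  obtain ⟨e⟩ := exists_equiv (A := A) X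
  refine ⟨⟨monOf e, ?_, monOf_sSup e, monOf_sInf e⟩, ⟨grOf e, ?_, grOf_sSup e, grOf_sInf e⟩⟩
  · intro H K h
    exact le_antisymm ((monOf_le e).1 h.le) ((monOf_le e).1 h.ge)
  · intro H K h
    exact le_antisymm ((grOf_le e).1 h.le) ((grOf_le e).1 h.ge)

/-- A complete embedding is a lattice homomorphism. -/
theorem IsCompleteEmbedding.exists_hom {L : Type*} {M : Type*} [CompleteLattice L]
    [CompleteLattice M] {f : L → M} (hf : IsCompleteEmbedding f) :
    ∃ g : LatticeHom L M, Function.Injective g := by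
  refine ⟨⟨⟨f, fun a b => ?_⟩, fun a b => ?_⟩, hf.1⟩
  · have := hf.2.1 {a, b}
    rwa [sSup_pair, image_pair, sSup_pair] at this
  · have := hf.2.2 {a, b} ⟨a, by simp⟩
    rwa [sInf_pair, image_pair, sInf_pair] at this

end Pool.Agent.Y352.LL
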