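import Mathlib
import Pool.Agent.Y352.LL.Gen
import Pool.Agent.Y352.LL.Fields

set_option autoImplicit false

/-! The lattice of subspaces of a finite-dimensional vector space over a field of cardinality at
most continuum is a complete sublattice of the lattice of the closed subgroups of `K ^ n`, with `K`
a suitable complete separable ultrametric field, and so of the lattices of local monoids and of
locally closed permutation groups. -/

universe u v w

namespace Pool.Agent.Y352.LL

open Cardinal Pool.Agent.W344.LocalLat

section base

variable {F : Type u} [Field F] {K : Type v} [Field K] [Algebra F K] {ι : Type w}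

/-- extension of scalars, for a subspace of `F ^ ι` -/
def ext (W : Submodule F (ι → F)) : Submodule K (ι → K) where
  carrier := {x | ∀ φ : K →ₗ[F] F, (fun i => φ (x i)) ∈ W}
  zero_mem' := by
    intro φ
    have : (fun i : ι => φ ((0 : ι → K) i)) = 0 := by
      funext i
      simp
    rw [this]
    exact W.zero_mem
  add_mem' := by
    intro x y hx hy φ
    have : (fun i : ι => φ ((x + y) i)) = (fun i => φ (x i)) + fun i => φ (y i) := by
      funext i
      simp
    rw [this]
    exact W.add_mem (hx φ) (hy φ)
  smul_mem' := by
    intro c x hx φ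
    have := hx (φ.comp (LinearMap.mulLeft F c))
    simpa using this

theorem mem_ext {W : Submodule F (ι → F)} {x : ι → K} :
    x ∈ (ext W : Submodule K (ι → K)) ↔ ∀ φ : K →ₗ[F] F, (fun i => φ (x i)) ∈ W := Iff.rfl

theorem map_mem_ext {W : Submodule F (ι → F)} {w : ι → F} (hw : w ∈ W) :
    (fun i => algebraMap F K (w i)) ∈ (ext W : Submodule K (ι → K)) := by
  intro φ
  have : (fun i => φ (algebraMap F K (w i))) = (φ 1) • w := by
    funext i
    rw [Algebra.algebraMap_eq_smul_one, map_smul]
    simp [mul_comm]
  rw [this]
  exact W.smul_mem _ hw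

theorem exists_retract : ∃ φ : K →ₗ[F] F, φ 1 = 1 := by
  obtain ⟨g, hg⟩ := (Algebra.linearMap F K).exists_leftInverse_of_injective
    (LinearMap.ker_eq_bot.2 (algebraMap F K).injective)
  refine ⟨g, ?_⟩
  have := LinearMap.congr_fun hg 1
  simpa using this

theorem ext_le {W W' : Submodule F (ι → F)} :
    (ext W : Submodule K (ι → K)) ≤ ext W' ↔ W ≤ W' := by
  constructor
  · intro h w hw
    obtain ⟨φ, hφ⟩ := exists_retract (F := F) (K := K)
    have h1 := h (map_mem_ext (K := K) hw) φ
    have : (fun i => φ (algebraMap F K (w i))) = w := by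
      funext i
      rw [Algebra.algebraMap_eq_smul_one, map_smul, hφ]
      simp
    rwa [this] at h1
  · intro h x hx φ
    exact h (hx φ)

theorem ext_sInf (S : Set (Submodule F (ι → F))) :
    (ext (sInf S) : Submodule K (ι → K)) = sInf (ext '' S) := by
  apply le_antisymm
  · apply le_sInf
    rintro _ ⟨W, hW, rfl⟩
    exact ext_le.2 (sInf_le hW)
  · intro x hx φ
    rw [Submodule.mem_sInf]
    intro W hW
    exact (Submodule.mem_sInf.1 hx) _ ⟨W, hW, rfl⟩ φ

theorem ext_sSup [Finite ι] (S : Set (Submodule F (ι → F))) :
    (ext (sSup S) : Submodule K (ι → K)) = sSup (ext '' S) := by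
  classical
  apply le_antisymm
  · let M : Submodule K (ι → K) := sSup (ext '' S)
    let M' : Submodule F (ι → F) :=
      { carrier := {w | (fun i => algebraMap F K (w i)) ∈ M}
        zero_mem' := by
          have : (fun i : ι => algebraMap F K ((0 : ι → F) i)) = 0 := by
            funext i
            simp
          show _ ∈ M
          rw [this]
          exact M.zero_mem
        add_mem' := by
          intro a b ha hb
          have : (fun i : ι => algebraMap F K ((a + b) i)) =
              (fun i => algebraMap F K (a i)) + fun i => algebraMap F K (b i) := by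
            funext i
            simp
          show _ ∈ M
          rw [this]
          exact M.add_mem ha hb
        smul_mem' := by
          intro c a ha
          have : (fun i : ι => algebraMap F K ((c • a) i)) =
              algebraMap F K c • fun i => algebraMap F K (a i) := by
            funext i
            simp
          show _ ∈ M
          rw [this]
          exact M.smul_mem _ ha }
    have h1 : sSup S ≤ M' := by
      apply sSup_le
      intro W hW w hw
      exact (le_sSup (Set.mem_image_of_mem _ hW) : ext W ≤ M) (map_mem_ext hw)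
    intro x hx
    have h2 : ∀ φ : K →ₗ[F] F, (fun i => algebraMap F K (φ (x i))) ∈ M :=
      fun φ => h1 (hx φ)
    have := Fintype.ofFinite ι
    let b := Module.Basis.ofVectorSpace F K
    let T := Finset.univ.biUnion fun i : ι => (b.repr (x i)).support
    have h3 : x = ∑ j ∈ T, (b j) • fun i => algebraMap F K ((b.coord j) (x i)) := by
      funext i
      have h4 := b.linearCombination_repr (x i)
      rw [Finsupp.linearCombination_apply, Finsupp.sum_of_support_subset (s := T)] at h4
      · simp only [Finset.sum_apply, Pi.smul_apply, smul_eq_mul, Module.Basis.coord_apply]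
        refine h4.symm.trans (Finset.sum_congr rfl ?_)
        intro j _
        rw [Algebra.smul_def, mul_comm]
      · exact Finset.subset_biUnion_of_mem (fun i : ι => (b.repr (x i)).support)
          (Finset.mem_univ i)
      · intro j _
        simp
    rw [h3]
    exact M.sum_mem fun j _ => M.smul_mem _ (h2 (b.coord j))
  · apply sSup_le
    rintro _ ⟨W, hW, rfl⟩
    exact ext_le.2 (le_sSup hW)

end base

section closed

variable {K : Type} [NontriviallyNormedField K] [CompleteSpace K] {n : ℕ}

/-- a subspace of `K ^ n`, as a closed subgroup -/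
def toClosed (W : Submodule K (Fin n → K)) : ClosedSub (Fin n → K) :=
  ⟨W.toAddSubgroup, W.closed_of_finiteDimensional⟩

theorem toClosed_le {W W' : Submodule K (Fin n → K)} : toClosed W ≤ toClosed W' ↔ W ≤ W' :=
  Iff.rfl

theorem toClosed_sInf (S : Set (Submodule K (Fin n → K))) :
    toClosed (sInf S) = sInf (toClosed '' S) := by
  apply le_antisymm
  · apply le_sInf
    rintro _ ⟨W, hW, rfl⟩
    exact toClosed_le.2 (sInf_le hW)
  · intro x hx
    show x ∈ sInf S
    rw [Submodule.mem_sInf]
    intro W hW
    exact (sInf_le (Set.mem_image_of_mem toClosed hW) : sInf (toClosed '' S) ≤ toClosed W) hx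

theorem toClosed_sSup (S : Set (Submodule K (Fin n → K))) :
    toClosed (sSup S) = sSup (toClosed '' S) := by
  apply le_antisymm
  · let N : ClosedSub (Fin n → K) := sSup (toClosed '' S)
    intro x hx
    have hx : x ∈ sSup S := hx
    show x ∈ N.1
    rw [sSup_eq_iSup'] at hx
    refine Submodule.iSup_induction (fun W : S => W.1) (motive := fun x => x ∈ N.1) hx ?_ ?_ ?_
    · intro W y hy
      exact (le_sSup (Set.mem_image_of_mem toClosed W.2) : toClosed W.1 ≤ N) hy
    · exact N.1.zero_mem
    · intro a b ha hb
      exact N.1.add_mem ha hb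
  · apply sSup_le
    rintro _ ⟨W, hW, rfl⟩
    exact toClosed_le.2 (le_sSup hW)

end closed

theorem IsCompleteEmbedding.comp {L : Type*} {M : Type*} {N : Type*} [CompleteLattice L]
    [CompleteLattice M] [CompleteLattice N] {g : M → N} {f : L → M} (hg : IsCompleteEmbedding g)
    (hf : IsCompleteEmbedding f) : IsCompleteEmbedding (g ∘ f) := by
  refine ⟨hg.1.comp hf.1, fun S => ?_, fun S hS => ?_⟩
  · rw [Function.comp_apply, hf.2.1, hg.2.1, Set.image_comp]
  · rw [Function.comp_apply, hf.2.2 S hS, hg.2.2 _ (hS.image _), Set.image_comp]

theorem isCompleteEmbedding_orderIso {L : Type*} {M : Type*} [CompleteLattice L]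
    [CompleteLattice M] (f : L ≃o M) : IsCompleteEmbedding f := by
  refine ⟨f.injective, fun S => ?_, fun S _ => ?_⟩
  · rw [f.map_sSup, sSup_image]
  · rw [f.map_sInf, sInf_image]

/-- the subspaces of a finite-dimensional vector space as closed subgroups -/
theorem exists_subspaces (F : Type u) [Field F] (V : Type v)
    [AddCommGroup V] [Module F V] [FiniteDimensional F V]
    (K : Type) [NontriviallyNormedField K] [CompleteSpace K] (σ : F →+* K) :
    ∃ f : Submodule F V → ClosedSub (Fin (Module.finrank F V) → K), IsCompleteEmbedding f := by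
  let _ : Algebra F K := σ.toAlgebra
  let e : V ≃ₗ[F] (Fin (Module.finrank F V) → F) := (Module.finBasis F V).equivFun
  have h1 : IsCompleteEmbedding (Submodule.orderIsoMapComap e) := isCompleteEmbedding_orderIso _
  have h2 : IsCompleteEmbedding
      (ext : Submodule F (Fin (Module.finrank F V) → F) → Submodule K _) :=
    ⟨fun W W' h => le_antisymm (ext_le.1 h.le) (ext_le.1 h.ge), ext_sSup, fun S _ => ext_sInf S⟩
  have h3 : IsCompleteEmbedding
      (toClosed : Submodule K (Fin (Module.finrank F V) → K) → _) :=
    ⟨fun W W' h => le_antisymm (toClosed_le.1 h.le) (toClosed_le.1 h.ge), toClosed_sSup,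
      fun S _ => toClosed_sInf S⟩
  exact ⟨_, h3.comp (h2.comp h1)⟩

theorem exists_subspace_embeddings (F : Type u) [Field F] (hF : #F ≤ 𝔠) (V : Type v)
    [AddCommGroup V] [Module F V] [FiniteDimensional F V] (X : Type w) [Countable X]
    [Infinite X] :
    (∃ f : Submodule F V → LocalMonoid X, IsCompleteEmbedding f) ∧
      ∃ f : Submodule F V → LocalGroup X, IsCompleteEmbedding f := by
  obtain ⟨K, i1, h1, h2, h3, ⟨σ⟩⟩ := exists_field F hF
  obtain ⟨f, hf⟩ := exists_subspaces F V K σ
  have : SecondCountableTopology K := UniformSpace.secondCountable_of_separable _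
  obtain ⟨⟨g, hg⟩, ⟨h, hh⟩⟩ :=
    exists_embeddings (A := Fin (Module.finrank F V) → K) X
  exact ⟨⟨_, hg.comp hf⟩, ⟨_, hh.comp hf⟩⟩

end Pool.Agent.Y352.LL
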