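import Mathlib

set_option autoImplicit false

/-! Chains and cardinality of the lattice of subspaces. -/

universe v

namespace Pool.Agent.Y352.LL

open Cardinal Module

variable {F : Type v} [Field F] {V : Type v} [AddCommGroup V] [Module F V]
  [FiniteDimensional F V]

theorem chain_bound (s : Set (Submodule F V)) (hs : IsChain (· ≤ ·) s) :
    s.encard ≤ ((finrank F V + 1 : ℕ) : ℕ∞) := by
  have hinj : Set.InjOn (fun W : Submodule F V => finrank F W) s := by
    intro W hW W' hW' h
    by_contra hne
    rcases hs hW hW' hne with h1 | h1
    · exact (Submodule.finrank_lt_finrank_of_lt (lt_of_le_of_ne h1 hne)).ne h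
    · exact (Submodule.finrank_lt_finrank_of_lt (lt_of_le_of_ne h1 (Ne.symm hne))).ne h.symm
  rw [← hinj.encard_image]
  refine (Set.encard_le_encard (t := (Finset.range (finrank F V + 1) : Set ℕ)) ?_).trans ?_
  · rintro _ ⟨W, -, rfl⟩
    simp only [Finset.coe_range, Set.mem_Iio]
    exact Nat.lt_succ_of_le W.finrank_le
  · rw [Set.encard_coe_eq_coe_finsetCard, Finset.card_range]

theorem card_submodule (hF : #F = 𝔠) (hV : 2 ≤ finrank F V) : #(Submodule F V) = 𝔠 := by
  have : Infinite F := by
    rw [Cardinal.infinite_iff, hF]
    exact aleph0_le_continuum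
  have : Nontrivial V := by
    apply Module.nontrivial_of_finrank_pos (R := F)
    omega
  have : Infinite V := Module.Free.infinite F V
  have hcV : #V ≤ 𝔠 := by
    let e : V ≃ₗ[F] (Fin (finrank F V) → F) := (finBasis F V).equivFun
    rw [Cardinal.mk_congr e.toEquiv]
    simp only [mk_pi, prod_const, mk_fin, lift_natCast, hF, lift_continuum]
    exact power_nat_le aleph0_le_continuum
  apply le_antisymm
  · have hs : Function.Surjective (fun t : Finset V => Submodule.span F (t : Set V)) := by
      intro W
      obtain ⟨t, ht⟩ := (IsNoetherian.noetherian W : W.FG)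
      exact ⟨t, ht⟩
    refine (mk_le_of_surjective hs).trans ?_
    rw [mk_finset_of_infinite]
    exact hcV
  · rw [← hF]
    let b := finBasis F V
    let i0 : Fin (finrank F V) := ⟨0, by omega⟩
    let i1 : Fin (finrank F V) := ⟨1, by omega⟩
    have hi : i0 ≠ i1 := by
      intro h
      have := congrArg Fin.val h
      simp [i0, i1] at this
    refine mk_le_of_injective (f := fun a : F => Submodule.span F {b i0 + a • b i1}) ?_
    intro a a' h
    have h' : Submodule.span F {b i0 + a • b i1} = Submodule.span F {b i0 + a' • b i1} := h
    have h1 : b i0 + a • b i1 ∈ Submodule.span F {b i0 + a' • b i1} := by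
      rw [← h']
      exact Submodule.mem_span_singleton_self _
    obtain ⟨c, hc⟩ := Submodule.mem_span_singleton.1 h1
    have e0 := congrArg (fun x => b.repr x i0) hc
    have e1 := congrArg (fun x => b.repr x i1) hc
    simp only [map_smul, map_add, Basis.repr_self, Finsupp.smul_apply, Finsupp.add_apply,
      Finsupp.single_eq_same, Finsupp.single_apply, smul_eq_mul] at e0 e1
    rw [if_neg hi.symm] at e0
    rw [if_neg hi] at e1
    simp at e0 e1
    rw [e0, one_mul] at e1
    exact e1.symm

end Pool.Agent.Y352.LL
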