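import Pool.Agent.H146R3.LocalLattices
import Pool.Agent.Y352.LL.Base

set_option autoImplicit false

/-! The lattice of local monoids is a complete sublattice of the lattice of local clones. -/

universe u v w

namespace Pool.Agent.Y352.LL

open Pool.Agent.H146R3 (LocalClone PtClosed ptClosed_iff Op)
open Pool.Agent.W344.LocalLat (LocalMonoid ptTop memInfM)
open Cardinal

variable {X : Type u}

/-- the local clone generated by a local monoid: its members with fictitious variables added -/
def cloOf (M : LocalMonoid X) : LocalClone X where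
  carrier n := {f | ∃ i : Fin (n + 1), ∃ m : X → X, (m : Function.End X) ∈ M.1 ∧
    f = fun x => m (x i)}
  proj_mem n i := ⟨i, id, M.1.one_mem, rfl⟩
  comp_mem := by
    rintro n m f g ⟨i, a, ha, rfl⟩ hg
    obtain ⟨j, b, hb, h⟩ := hg i
    refine ⟨j, a ∘ b, M.1.mul_mem ha hb, ?_⟩
    funext x
    simp only [h]
    rfl
  closed n := by
    classical
    rw [ptClosed_iff]
    intro f hf
    have h1 : ∃ i : Fin (n + 1), ∀ A : Finset (Fin (n + 1) → X), ∃ m : X → X,
        (m : Function.End X) ∈ M.1 ∧ ∀ a ∈ A, m (a i) = f a := by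
      by_contra hcon
      push Not at hcon
      choose A hA using hcon
      obtain ⟨g, ⟨i, m, hm, rfl⟩, hg⟩ := hf (Finset.univ.biUnion A)
      obtain ⟨a, ha, hne⟩ := hA i m hm
      exact hne (hg a (Finset.mem_biUnion.2 ⟨i, Finset.mem_univ i, ha⟩))
    obtain ⟨i, hi⟩ := h1
    refine ⟨i, fun x => f (fun _ => x), ?_, ?_⟩
    · have hM : PtClosed {f : X → X | (f : Function.End X) ∈ M.1} := M.2
      refine (ptClosed_iff _).1 hM _ fun B => ?_
      obtain ⟨m, hm, h⟩ := hi (B.image fun b => fun _ => b)
      exact ⟨m, hm, fun b hb => h (fun _ => b) (Finset.mem_image.2 ⟨b, hb, rfl⟩)⟩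
    · funext a
      obtain ⟨m, hm, h⟩ := hi {a, fun _ => a i}
      rw [← h a (by simp)]
      exact h (fun _ => a i) (by simp)

/-- the unary part of a local clone -/
def unary (C : LocalClone X) : LocalMonoid X :=
  ⟨{ carrier := {m : X → X | (fun x : Fin 1 → X => m (x 0)) ∈ C.carrier 0}
     one_mem' := C.proj_mem 0 0
     mul_mem' := by
      intro a b ha hb
      exact C.comp_mem (f := fun x : Fin 1 → X => a (x 0))
        (g := fun _ => fun x : Fin 1 → X => b (x 0)) ha (fun _ => hb) }, by
    classical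
    have : PtClosed {m : X → X | (fun x : Fin 1 → X => m (x 0)) ∈ C.carrier 0} := by
      rw [ptClosed_iff]
      intro f hf
      refine (ptClosed_iff _).1 (C.closed 0) _ fun A => ?_
      obtain ⟨g, hg, h⟩ := hf (A.image fun a => a 0)
      exact ⟨_, hg, fun a ha => h (a 0) (Finset.mem_image.2 ⟨a, ha, rfl⟩)⟩
    exact this⟩

theorem le_unary {M : LocalMonoid X} {C : LocalClone X} : cloOf M ≤ C ↔ M ≤ unary C := by
  constructor
  · intro h m hm
    exact h 0 ⟨0, m, hm, rfl⟩
  · rintro h n f ⟨i, m, hm, rfl⟩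
    have h1 : (fun x : Fin 1 → X => m (x 0)) ∈ C.carrier 0 := h hm
    exact C.comp_mem (f := fun x : Fin 1 → X => m (x 0)) (g := fun _ => fun x => x i) h1
      (fun _ => C.proj_mem n i)

theorem unary_cloOf (M : LocalMonoid X) : unary (cloOf M) = M := by
  apply le_antisymm
  · rintro m ⟨i, m', hm', h⟩
    have : m = m' := by
      funext x
      exact congrFun h (fun _ => x)
    rw [this]
    exact hm'
  · exact le_unary.1 le_rfl

theorem cloOf_le {M N : LocalMonoid X} : cloOf M ≤ cloOf N ↔ M ≤ N := by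
  rw [le_unary, unary_cloOf]

theorem cloOf_isCompleteEmbedding :
    IsCompleteEmbedding (cloOf : LocalMonoid X → LocalClone X) := by
  refine ⟨fun M N h => le_antisymm (cloOf_le.1 h.le) (cloOf_le.1 h.ge), fun S => ?_,
    fun S hS => ?_⟩
  · apply le_antisymm
    · rw [le_unary]
      apply sSup_le
      intro M hM
      rw [← le_unary]
      exact le_sSup (Set.mem_image_of_mem _ hM)
    · apply sSup_le
      rintro _ ⟨M, hM, rfl⟩
      exact cloOf_le.2 (le_sSup hM)
  · apply le_antisymm
    · apply le_sInf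
      rintro _ ⟨M, hM, rfl⟩
      exact cloOf_le.2 (sInf_le hM)
    · intro n f hf
      obtain ⟨M0, hM0⟩ := hS
      have h0 : ∀ M ∈ S, f ∈ (cloOf M).carrier n := fun M hM => hf _ ⟨M, hM, rfl⟩
      obtain ⟨i, m, hm, rfl⟩ := h0 M0 hM0
      refine ⟨i, m, ?_, rfl⟩
      show (m : Function.End X) ∈ (⨅ M ∈ S, M.1 : Submonoid (Function.End X))
      refine (memInfM S m).2 ?_
      intro M hM
      obtain ⟨j, m', hm', h⟩ := h0 M hM
      have : m = m' := by
        funext x
        exact congrFun h (fun _ => x)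
      rw [this]
      exact hm'

end Pool.Agent.Y352.LL
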