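import Pool.Agent.Y352.LL.Clo

set_option autoImplicit false

/-! Finite products. -/

universe u v w

namespace Pool.Agent.Y352.LL

open Pool.Agent.H146R3 (LocalClone)
open Cardinal

theorem isCompleteEmbedding_pi {ι : Type*} {L : ι → Type*} {M : ι → Type*}
    [∀ i, CompleteLattice (L i)] [∀ i, CompleteLattice (M i)] {f : ∀ i, L i → M i}
    (hf : ∀ i, IsCompleteEmbedding (f i)) :
    IsCompleteEmbedding (fun (x : ∀ i, L i) (i : ι) => f i (x i)) := by
  refine ⟨fun x y h => funext fun i => (hf i).1 (congrFun h i), fun S => ?_, fun S hS => ?_⟩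
  · funext i
    show f i ((sSup S) i) = (sSup ((fun (x : ∀ i, L i) (i : ι) => f i (x i)) '' S)) i
    rw [sSup_apply_eq_sSup_image, sSup_apply_eq_sSup_image, (hf i).2.1, Set.image_image,
      Set.image_image]
  · funext i
    show f i ((sInf S) i) = (sInf ((fun (x : ∀ i, L i) (i : ι) => f i (x i)) '' S)) i
    rw [sInf_apply_eq_sInf_image, sInf_apply_eq_sInf_image, (hf i).2.2 _ (hS.image _),
      Set.image_image, Set.image_image]

section

variable {ι : Type} [Fintype ι] {A : ι → Type} [∀ i, NormedAddCommGroup (A i)]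

/-- the product of closed subgroups -/
def prodSub (H : ∀ i, ClosedSub (A i)) : ClosedSub (∀ i, A i) :=
  ⟨AddSubgroup.pi Set.univ fun i => (H i).1, by
    rw [AddSubgroup.coe_pi]
    exact isClosed_set_pi fun i _ => (H i).2⟩

theorem mem_prodSub {H : ∀ i, ClosedSub (A i)} {x : ∀ i, A i} :
    x ∈ (prodSub H).1 ↔ ∀ i, x i ∈ (H i).1 := by
  show x ∈ AddSubgroup.pi Set.univ (fun i => (H i).1) ↔ _
  rw [AddSubgroup.mem_pi]
  simp

theorem prodSub_le {H H' : ∀ i, ClosedSub (A i)} : prodSub H ≤ prodSub H' ↔ H ≤ H' := by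
  classical
  constructor
  · intro h i a ha
    have h1 : Pi.single i a ∈ (prodSub H).1 := by
      rw [mem_prodSub]
      intro j
      rcases eq_or_ne j i with rfl | hj
      · rw [Pi.single_eq_same]; exact ha
      · rw [Pi.single_eq_of_ne hj]; exact (H j).1.zero_mem
    have h2 := mem_prodSub.1 (h h1) i
    rwa [Pi.single_eq_same] at h2
  · intro h x hx
    exact mem_prodSub.2 fun i => h i (mem_prodSub.1 hx i)

theorem prodSub_isCompleteEmbedding :
    IsCompleteEmbedding (prodSub : (∀ i, ClosedSub (A i)) → ClosedSub (∀ i, A i)) := by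
  classical
  refine ⟨fun H H' h => le_antisymm (prodSub_le.1 h.le) (prodSub_le.1 h.ge), fun S => ?_,
    fun S hS => ?_⟩
  · apply le_antisymm
    · let N : ClosedSub (∀ i, A i) := sSup (prodSub '' S)
      let N' : ∀ i, ClosedSub (A i) := fun i => ⟨{
        carrier := {a | Pi.single i a ∈ N.1}
        zero_mem' := by
          show Pi.single i 0 ∈ N.1
          rw [Pi.single_zero]; exact N.1.zero_mem
        add_mem' := by
          intro a b ha hb
          show Pi.single i (a + b) ∈ N.1
          rw [Pi.single_add]; exact N.1.add_mem ha hb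
        neg_mem' := by
          intro a ha
          show Pi.single i (-a) ∈ N.1
          rw [Pi.single_neg]; exact N.1.neg_mem ha }, N.2.preimage (continuous_single i)⟩
      have h1 : sSup S ≤ N' := by
        apply sSup_le
        intro H hH i a ha
        have h2 : prodSub H ≤ N := le_sSup (Set.mem_image_of_mem _ hH)
        apply h2
        rw [mem_prodSub]
        intro j
        rcases eq_or_ne j i with rfl | hj
        · rw [Pi.single_eq_same]; exact ha
        · rw [Pi.single_eq_of_ne hj]; exact (H j).1.zero_mem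
      intro x hx
      show x ∈ N.1
      rw [← Finset.univ_sum_single x]
      exact N.1.sum_mem fun i _ => h1 i (mem_prodSub.1 hx i)
    · apply sSup_le
      rintro _ ⟨H, hH, rfl⟩
      exact prodSub_le.2 (le_sSup hH)
  · apply le_antisymm
    · apply le_sInf
      rintro _ ⟨H, hH, rfl⟩
      exact prodSub_le.2 (sInf_le hH)
    · intro x hx
      rw [mem_prodSub]
      intro i
      rw [sInf_apply_eq_sInf_image]
      show x i ∈ (⨅ H ∈ (fun H : ∀ i, ClosedSub (A i) => H i) '' S, H.1 : AddSubgroup (A i))
      simp only [AddSubgroup.mem_iInf]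
      rintro _ ⟨H, hH, rfl⟩
      have h3 : sInf (prodSub '' S) ≤ prodSub H := sInf_le (Set.mem_image_of_mem _ hH)
      exact mem_prodSub.1 (h3 hx) i

end

/-- finite products of subspace lattices over possibly different fields -/
theorem exists_product_embedding (X : Type u) [Countable X] [Infinite X] (ι : Type) [Fintype ι]
    (F : ι → Type v) [∀ i, Field (F i)] (hF : ∀ i, #(F i) ≤ 𝔠) (V : ι → Type v)
    [∀ i, AddCommGroup (V i)] [∀ i, Module (F i) (V i)] [∀ i, FiniteDimensional (F i) (V i)] :
    ∃ f : (∀ i, Submodule (F i) (V i)) → LocalClone X, IsCompleteEmbedding f := by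
  choose K i1 h1 h2 h3 σ using fun i => exists_field (F i) (hF i)
  choose f hf using fun i => exists_subspaces (F i) (V i) (K i) (σ i).some
  have : ∀ i, SecondCountableTopology (K i) := fun i =>
    have := h3 i
    UniformSpace.secondCountable_of_separable _
  obtain ⟨⟨g, hg⟩, -⟩ :=
    exists_embeddings (A := ∀ i, Fin (Module.finrank (F i) (V i)) → K i) X
  exact ⟨_, cloOf_isCompleteEmbedding.comp (hg.comp
    (prodSub_isCompleteEmbedding.comp (isCompleteEmbedding_pi hf)))⟩

end Pool.Agent.Y352.LL
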